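import Mathlib

set_option autoImplicit false

/-!
# Finitely generated domains over countable fields with nonzero Jacobson radical

Let `k` be a countable field. We construct a finitely generated `k`-algebra `R` which is a domain
with `J(R) ≠ 0`.

Idea. Let `G₀ = (F × F) ⋊ ℤ`, where `F` is the free group on `u_n`, respectively `b_n` (`n ∈ ℤ`) and
`ℤ = ⟨a⟩` acts by the shift. It is generated by `a`, `t = u_0` and `b = b_0`, and it is defined by
the relations `b u_n = u_n b`, where `u_n = a ^ n t a ^ (-n)`.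
We deform its group algebra over the central variable `X`: inside the ring of power series over
`End (k[G₀])` we construct a unit `b` with `b u_n = (1 + X r_n) u_n b` for all `n`, where
`r_n` runs through all the elements of the algebra `R` generated by `X` and
`a, a⁻¹, t, t⁻¹, b, b⁻¹` (this uses a fixed point argument, and that the `u_n` freely generate a
free group acting freely on `G₀`). Then all `1 + X r` are units of `R`, so `X ∈ J(R)`.
Moreover `R ∩ (X) = X R` and `R / X R ≅ k[G₀]` has no zero divisors, so `R` is a domain.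
-/

namespace Pool.Agent.Results.MP_2e9a62_al.FGDomainNonzeroJacobson

open Finset

/-- every nontrivial subgroup has a nontrivial homomorphism to the integers -/
def Indic (G : Type) [Group G] : Prop :=
  ∀ H : Subgroup G, H ≠ ⊥ → ∃ f : H →* Multiplicative ℤ, f ≠ 1

theorem uniqueProds_of_indic (G : Type) [Group G] (hG : Indic G) : UniqueProds G := by
  classical
  have key : ∀ n : ℕ, ∀ A B : Finset G, A.Nonempty → B.Nonempty → #A + #B ≤ n →
      ∃ a ∈ A, ∃ b ∈ B, UniqueMul A B a b := by
    intro n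
    induction n with
    | zero =>
      intro A B hA hB h
      have := hA.card_pos
      omega
    | succ n ih =>
      intro A B hA hB h
      obtain ⟨a₀, ha₀⟩ := hA
      obtain ⟨b₀, hb₀⟩ := hB
      let S : Set G := {x | ∃ a ∈ A, x = a₀⁻¹ * a} ∪ {x | ∃ b ∈ B, x = b * b₀⁻¹}
      let H : Subgroup G := Subgroup.closure S
      by_cases hH : H = ⊥
      · -- all trivial
        have hS : ∀ x ∈ S, x = 1 := by
          intro x hx
          have : x ∈ H := Subgroup.subset_closure hx
          rw [hH] at this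
          exact Subgroup.mem_bot.mp this
        refine ⟨a₀, ha₀, b₀, hb₀, ?_⟩
        intro a b ha hb _
        have h1 := hS (a₀⁻¹ * a) (Or.inl ⟨a, ha, rfl⟩)
        have h2 := hS (b * b₀⁻¹) (Or.inr ⟨b, hb, rfl⟩)
        exact ⟨(inv_mul_eq_one.mp h1).symm, mul_inv_eq_one.mp h2⟩
      · obtain ⟨f, hf⟩ := hG H hH
        have hSne : ∃ x, ∃ hx : x ∈ S, f ⟨x, Subgroup.subset_closure hx⟩ ≠ 1 := by
          by_contra hcon
          push Not at hcon
          apply hf
          ext ⟨x, hx⟩
          have : ∀ x (hx : x ∈ H), f ⟨x, hx⟩ = 1 := by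
            intro x hx
            induction hx using Subgroup.closure_induction with
            | mem y hy => exact hcon y hy
            | one => exact f.map_one
            | mul y z hy hz h1 h2 =>
              have : (⟨y * z, H.mul_mem hy hz⟩ : H) = ⟨y, hy⟩ * ⟨z, hz⟩ := rfl
              rw [this, map_mul, h1, h2, one_mul]
            | inv y hy h1 =>
              have : (⟨y⁻¹, H.inv_mem hy⟩ : H) = ⟨y, hy⟩⁻¹ := rfl
              rw [this, map_inv, h1, inv_one]
          rw [this x hx]; rfl
        -- level functions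
        let g : G → ℤ := fun x => if hx : x ∈ H then (f ⟨x, hx⟩).toAdd else 0
        have gmul : ∀ x ∈ H, ∀ y ∈ H, g (x * y) = g x + g y := by
          intro x hx y hy
          simp only [g, dif_pos hx, dif_pos hy, dif_pos (H.mul_mem hx hy)]
          rw [← toAdd_mul, ← map_mul]; rfl
        have ginv : ∀ x ∈ H, g x⁻¹ = - g x := by
          intro x hx
          simp only [g, dif_pos hx, dif_pos (H.inv_mem hx)]
          rw [← toAdd_inv, ← map_inv]; rfl
        have hAH : ∀ a ∈ A, a₀⁻¹ * a ∈ H := fun a ha => Subgroup.subset_closure (Or.inl ⟨a, ha, rfl⟩)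
        have hBH : ∀ b ∈ B, b * b₀⁻¹ ∈ H := fun b hb => Subgroup.subset_closure (Or.inr ⟨b, hb, rfl⟩)
        obtain ⟨aM, haM, hamax⟩ := A.exists_max_image (fun a => g (a₀⁻¹ * a)) ⟨a₀, ha₀⟩
        obtain ⟨bM, hbM, hbmax⟩ := B.exists_max_image (fun b => g (b * b₀⁻¹)) ⟨b₀, hb₀⟩
        let A' := A.filter (fun a => g (a₀⁻¹ * a) = g (a₀⁻¹ * aM))
        let B' := B.filter (fun b => g (b * b₀⁻¹) = g (bM * b₀⁻¹))
        have hcard : #A' + #B' ≤ n := by
          have h1 : #A' ≤ #A := card_filter_le _ _
          have h2 : #B' ≤ #B := card_filter_le _ _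
          by_contra hcon
          have h3 : #A' = #A := by omega
          have h4 : #B' = #B := by omega
          have h5 : A' = A := Finset.eq_of_subset_of_card_le (filter_subset _ _) (by omega)
          have h6 : B' = B := Finset.eq_of_subset_of_card_le (filter_subset _ _) (by omega)
          have h7 : ∀ a ∈ A, g (a₀⁻¹ * a) = 0 := by
            intro a ha
            have e1 : g (a₀⁻¹ * a) = g (a₀⁻¹ * aM) := by
              rw [← h5] at ha; exact (mem_filter.mp ha).2
            have e2 : g (a₀⁻¹ * a₀) = g (a₀⁻¹ * aM) := by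
              rw [← h5] at ha₀; exact (mem_filter.mp ha₀).2
            rw [e1, ← e2, inv_mul_cancel]
            have := gmul 1 H.one_mem 1 H.one_mem
            rw [mul_one] at this
            omega
          have h8 : ∀ b ∈ B, g (b * b₀⁻¹) = 0 := by
            intro b hb
            have e1 : g (b * b₀⁻¹) = g (bM * b₀⁻¹) := by
              rw [← h6] at hb; exact (mem_filter.mp hb).2
            have e2 : g (b₀ * b₀⁻¹) = g (bM * b₀⁻¹) := by
              rw [← h6] at hb₀; exact (mem_filter.mp hb₀).2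
            rw [e1, ← e2, mul_inv_cancel]
            have := gmul 1 H.one_mem 1 H.one_mem
            rw [mul_one] at this
            omega
          obtain ⟨x, hx, hfx⟩ := hSne
          have h9 : g x = 0 := by
            rcases hx with ⟨a, ha, rfl⟩ | ⟨b, hb, rfl⟩
            · exact h7 a ha
            · exact h8 b hb
          apply hfx
          have hxH : x ∈ H := Subgroup.subset_closure hx
          simp only [g, dif_pos hxH] at h9
          exact toAdd_eq_zero.mp h9
        obtain ⟨a, ha, b, hb, hab⟩ := ih A' B' ⟨aM, mem_filter.mpr ⟨haM, rfl⟩⟩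
          ⟨bM, mem_filter.mpr ⟨hbM, rfl⟩⟩ hcard
        obtain ⟨haA, haL⟩ := mem_filter.mp ha
        obtain ⟨hbB, hbL⟩ := mem_filter.mp hb
        refine ⟨a, haA, b, hbB, ?_⟩
        intro x y hx hy hxy
        have e1 : g (a₀⁻¹ * x) + g (y * b₀⁻¹) = g (a₀⁻¹ * a) + g (b * b₀⁻¹) := by
          rw [← gmul _ (hAH x hx) _ (hBH y hy), ← gmul _ (hAH a haA) _ (hBH b hbB)]
          congr 1
          calc a₀⁻¹ * x * (y * b₀⁻¹) = a₀⁻¹ * (x * y) * b₀⁻¹ := by group
            _ = a₀⁻¹ * (a * b) * b₀⁻¹ := by rw [hxy]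
            _ = _ := by group
        have e2 := hamax x hx
        have e3 := hbmax y hy
        exact hab (mem_filter.mpr ⟨hx, by omega⟩) (mem_filter.mpr ⟨hy, by omega⟩) hxy
  exact ⟨fun {A B} hA hB => key _ A B hA hB le_rfl⟩

theorem indic_free (α : Type) : Indic (FreeGroup α) := by
  intro H hH
  have : IsFreeGroup H := inferInstance
  let e := IsFreeGroup.toFreeGroup H
  have hne : Nonempty (IsFreeGroup.Generators H) := by
    by_contra hcon
    rw [not_nonempty_iff] at hcon
    apply hH
    rw [Subgroup.eq_bot_iff_forall]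
    intro x hx
    have h1 : e ⟨x, hx⟩ = 1 := Subsingleton.elim _ _
    have h2 : (⟨x, hx⟩ : H) = 1 := by
      apply e.injective
      rw [h1, map_one]
    exact congrArg Subtype.val h2
  obtain ⟨i⟩ := hne
  refine ⟨(FreeGroup.lift (fun _ => Multiplicative.ofAdd (1 : ℤ))).comp e.toMonoidHom, ?_⟩
  intro h
  have h1 := DFunLike.congr_fun h (e.symm (FreeGroup.of i))
  simp at h1


/-- shift on the free group on the integers -/
def shf (m : ℤ) : FreeGroup ℤ ≃* FreeGroup ℤ := FreeGroup.freeGroupCongr (Equiv.addLeft m)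

theorem shf_of (m n : ℤ) : shf m (FreeGroup.of n) = FreeGroup.of (m + n) := by
  simp [shf]

theorem shf_add (m n : ℤ) (x : FreeGroup ℤ) : shf (m + n) x = shf m (shf n x) := by
  have : (shf (m + n)).toMonoidHom = (shf m).toMonoidHom.comp (shf n).toMonoidHom := by
    ext i
    simp [shf_of, add_assoc]
  exact DFunLike.congr_fun this x

/-- the shift action of the integers on the square of the free group -/
def act : Multiplicative ℤ →* MulAut (FreeGroup ℤ × FreeGroup ℤ) where
  toFun m := MulEquiv.prodCongr (shf m.toAdd) (shf m.toAdd)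
  map_one' := by
    ext x
    · have := shf_add 0 0 x.1
      rw [add_zero] at this
      exact ((shf 0).injective this).symm
    · have := shf_add 0 0 x.2
      rw [add_zero] at this
      exact ((shf 0).injective this).symm
  map_mul' m n := by
    ext x
    · exact shf_add _ _ _
    · exact shf_add _ _ _

/-- the group `G₀ = (F × F) ⋊ ℤ` -/
abbrev G0 : Type := (FreeGroup ℤ × FreeGroup ℤ) ⋊[act] Multiplicative ℤ

theorem indic_of_hom {G Q : Type} [Group G] [Group Q] (H : Subgroup G) (f : H →* Q)
    (hQ : Indic Q) (hf : f ≠ 1) : ∃ f : H →* Multiplicative ℤ, f ≠ 1 := by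
  have hr : f.range ≠ ⊥ := by
    intro h
    apply hf
    rw [MonoidHom.range_eq_bot_iff] at h
    exact h
  obtain ⟨g, hg⟩ := hQ f.range hr
  refine ⟨g.comp f.rangeRestrict, ?_⟩
  intro h
  apply hg
  ext ⟨y, x, hx⟩
  have := DFunLike.congr_fun h x
  have h2 : (⟨y, x, hx⟩ : f.range) = f.rangeRestrict x := by
    apply Subtype.ext; exact hx.symm
  rw [h2]
  exact congrArg _ this

theorem indic_int : Indic (Multiplicative ℤ) := by
  intro H hH
  refine ⟨H.subtype, ?_⟩
  intro h
  apply hH
  rw [Subgroup.eq_bot_iff_forall]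
  intro x hx
  exact DFunLike.congr_fun h ⟨x, hx⟩

theorem indic_G0 : Indic G0 := by
  intro H hH
  by_cases h1 : (SemidirectProduct.rightHom (φ := act)).comp H.subtype = 1
  · -- contained in the kernel
    have hr : ∀ x ∈ H, x.right = 1 := fun x hx => DFunLike.congr_fun h1 (⟨x, hx⟩ : H)
    let p : H →* FreeGroup ℤ × FreeGroup ℤ :=
      { toFun := fun x => x.1.left
        map_one' := rfl
        map_mul' := by
          rintro ⟨x, hx⟩ ⟨y, hy⟩
          change (x * y).left = x.left * y.left
          rw [SemidirectProduct.mul_left, hr x hx, map_one]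
          rfl }
    by_cases h2 : (MonoidHom.fst _ _).comp p = 1
    · by_cases h3 : (MonoidHom.snd _ _).comp p = 1
      · exfalso
        apply hH
        rw [Subgroup.eq_bot_iff_forall]
        intro x hx
        have e1 := DFunLike.congr_fun h2 (⟨x, hx⟩ : H)
        have e2 := DFunLike.congr_fun h3 (⟨x, hx⟩ : H)
        exact SemidirectProduct.ext (Prod.ext e1 e2) (hr x hx)
      · exact indic_of_hom H _ (indic_free ℤ) h3
    · exact indic_of_hom H _ (indic_free ℤ) h2
  · exact indic_of_hom H _ indic_int h1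

instance : UniqueProds G0 := uniqueProds_of_indic G0 indic_G0

theorem domain_G0 (k : Type) [Field k] : NoZeroDivisors (MonoidAlgebra k G0) := inferInstance


section main

open PowerSeries

variable (k : Type) [Field k]

abbrev Lam : Type := MonoidAlgebra k G0
abbrev E0 : Type := Module.End k (Lam k)
abbrev EE : Type := PowerSeries (E0 k)

/-- left multiplication -/
noncomputable def Lm : Lam k →ₐ[k] E0 k := Algebra.lmul k (Lam k)

theorem Lm_apply (x y : Lam k) : Lm k x y = x * y := rfl

theorem Lm_inj : Function.Injective (Lm k) := by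
  intro x y h
  have := DFunLike.congr_fun h 1
  rwa [Lm_apply, Lm_apply, mul_one, mul_one] at this

/-- undeformed representation -/
noncomputable def lam : G0 →* (EE k)ˣ :=
  (Units.map ((PowerSeries.C : E0 k →+* EE k) : E0 k →* EE k)).comp
    ((Units.map ((Lm k : Lam k →* E0 k))).comp (MonoidAlgebra.of k G0).toHomUnits)

theorem lam_val (g : G0) : (lam k g : EE k) = C (Lm k (MonoidAlgebra.single g 1)) := rfl

/-- congruence modulo `X ^ i` -/
def cg (i : ℕ) (f g : EE k) : Prop := (X : EE k) ^ i ∣ f - g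

variable {k}

theorem cg_iff (i : ℕ) (f g : EE k) : cg k i f g ↔ ∀ j < i, coeff j f = coeff j g := by
  unfold cg
  rw [PowerSeries.X_pow_dvd_iff]
  simp [sub_eq_zero]

theorem cg_refl (i : ℕ) (f : EE k) : cg k i f f := by simp [cg]
theorem cg_symm {i : ℕ} {f g : EE k} (h : cg k i f g) : cg k i g f := by
  rw [cg_iff] at *; intro j hj; exact (h j hj).symm
theorem cg_trans {i : ℕ} {f g h : EE k} (h1 : cg k i f g) (h2 : cg k i g h) : cg k i f h := by
  rw [cg_iff] at *; intro j hj; exact (h1 j hj).trans (h2 j hj)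
theorem cg_mono {i j : ℕ} (hij : j ≤ i) {f g : EE k} (h1 : cg k i f g) : cg k j f g := by
  rw [cg_iff] at *; intro l hl; exact h1 l (by omega)
theorem cg_add {i : ℕ} {f g f' g' : EE k} (h1 : cg k i f g) (h2 : cg k i f' g') :
    cg k i (f + f') (g + g') := by
  rw [cg_iff] at *; intro j hj; rw [map_add, map_add, h1 j hj, h2 j hj]

theorem cg_mul_left {i : ℕ} {f g : EE k} (c : EE k) (h : cg k i f g) : cg k i (c * f) (c * g) := by
  unfold cg at *
  rw [← mul_sub]
  obtain ⟨d, hd⟩ := h
  rw [hd, ← mul_assoc, (PowerSeries.commute_X_pow c i).eq, mul_assoc]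
  exact Dvd.intro _ rfl

theorem cg_mul_right {i : ℕ} {f g : EE k} (c : EE k) (h : cg k i f g) : cg k i (f * c) (g * c) := by
  unfold cg at *
  rw [← sub_mul]
  exact Dvd.dvd.mul_right h c

theorem cg_mul {i : ℕ} {f g f' g' : EE k} (h1 : cg k i f g) (h2 : cg k i f' g') :
    cg k i (f * f') (g * g') :=
  cg_trans (cg_mul_right _ h1) (cg_mul_left _ h2)

theorem cg_inv {i : ℕ} {f g : (EE k)ˣ} (h : cg k i (f : EE k) g) :
    cg k i ((f⁻¹ : (EE k)ˣ) : EE k) ((g⁻¹ : (EE k)ˣ) : EE k) := by
  have h1 := cg_mul_right ((g⁻¹ : (EE k)ˣ) : EE k) (cg_mul_left ((f⁻¹ : (EE k)ˣ) : EE k) h)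
  rw [Units.inv_mul, one_mul, mul_assoc, Units.mul_inv, mul_one] at h1
  exact cg_symm h1

theorem cg_X_mul {i : ℕ} {f g : EE k} (h : cg k i f g) : cg k (i + 1) (X * f) (X * g) := by
  unfold cg at *
  obtain ⟨d, hd⟩ := h
  rw [← mul_sub, hd, ← mul_assoc, ← pow_succ']
  exact Dvd.intro _ rfl

/-- the unit `1 + X s` -/
noncomputable def oneX (s : EE k) : (EE k)ˣ where
  val := 1 + X * s
  inv := invOfUnit (1 + X * s) 1
  val_inv := mul_invOfUnit _ _ (by simp)
  inv_val := invOfUnit_mul _ _ (by simp)

theorem oneX_val (s : EE k) : (oneX s : EE k) = 1 + X * s := rfl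

variable (k)

def uu (n : ℤ) : G0 := SemidirectProduct.inl (FreeGroup.of n, 1)
def bb (n : ℤ) : G0 := SemidirectProduct.inl (1, FreeGroup.of n)
def aa : G0 := SemidirectProduct.inr (Multiplicative.ofAdd 1)

/-- the seven generators of the ring attached to a unit `b` -/
noncomputable def gens (b : (EE k)ˣ) (j : Fin 7) : EE k :=
  if j = 0 then X else if j = 1 then lam k aa else if j = 2 then ((lam k aa)⁻¹ : (EE k)ˣ)
  else if j = 3 then lam k (uu 0) else if j = 4 then ((lam k (uu 0))⁻¹ : (EE k)ˣ)
  else if j = 5 then b else (b⁻¹ : (EE k)ˣ)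

noncomputable def ev (b : (EE k)ˣ) : FreeAlgebra k (Fin 7) →ₐ[k] EE k := FreeAlgebra.lift k (gens k b)

theorem ev_cong (i : ℕ) (b b' : (EE k)ˣ) (h : cg k i (b : EE k) b') (p : FreeAlgebra k (Fin 7)) :
    cg k i (ev k b p) (ev k b' p) := by
  induction p with
  | grade0 r => rw [AlgHom.commutes, AlgHom.commutes]; exact cg_refl _ _
  | grade1 x =>
    unfold ev
    rw [FreeAlgebra.lift_ι_apply, FreeAlgebra.lift_ι_apply]
    unfold gens
    split_ifs
    · exact cg_refl _ _
    · exact cg_refl _ _
    · exact cg_refl _ _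
    · exact cg_refl _ _
    · exact cg_refl _ _
    · exact h
    · exact cg_inv h
  | mul p q hp hq => rw [map_mul, map_mul]; exact cg_mul hp hq
  | add p q hp hq => rw [map_add, map_add]; exact cg_add hp hq

variable (rr : ℤ → FreeAlgebra k (Fin 7))

noncomputable def theta (b : (EE k)ˣ) : FreeGroup ℤ →* (EE k)ˣ :=
  FreeGroup.lift (fun n => oneX (ev k b (rr n)) * lam k (uu n))

theorem theta_cong (i : ℕ) (b b' : (EE k)ˣ) (h : cg k i (b : EE k) b') (p : FreeGroup ℤ) :
    cg k (i + 1) (theta k rr b p : EE k) (theta k rr b' p) := by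
  induction p using FreeGroup.induction_on with
  | C1 => rw [map_one, map_one]; exact cg_refl _ _
  | of n =>
    unfold theta
    rw [FreeGroup.lift_apply_of, FreeGroup.lift_apply_of, Units.val_mul, Units.val_mul, oneX_val, oneX_val]
    exact cg_mul_right _ (cg_add (cg_refl _ _) (cg_X_mul (ev_cong k i b b' h _)))
  | inv_of n hn => rw [map_inv, map_inv]; exact cg_inv hn
  | mul p q hp hq => rw [map_mul, map_mul, Units.val_mul, Units.val_mul]; exact cg_mul hp hq

/-- linear map on the group algebra given by the images of the group elements -/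
noncomputable def lin (f : G0 → Lam k) : E0 k :=
  (Finsupp.linearCombination k f) ∘ₗ (MonoidAlgebra.coeffLinearEquiv k).toLinearMap

theorem lin_single (f : G0 → Lam k) (g : G0) : lin k f (MonoidAlgebra.single g 1) = f g := by
  simp [lin]

theorem end_ext (f g : E0 k) (h : ∀ x : G0, f (MonoidAlgebra.single x 1) = g (MonoidAlgebra.single x 1)) :
    f = g := by
  apply LinearMap.ext
  intro y
  induction y using MonoidAlgebra.induction_linear with
  | zero => simp
  | add x y hx hy => rw [map_add, map_add, hx, hy]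
  | single x r =>
    have : (MonoidAlgebra.single x r : Lam k) = r • MonoidAlgebra.single x 1 := by simp
    rw [this, map_smul, map_smul, h]

def g00 (g : G0) : G0 := ⟨(1, FreeGroup.of 0 * g.left.2), g.right⟩

noncomputable def Phi (b : (EE k)ˣ) : EE k :=
  PowerSeries.mk (fun j => lin k (fun g => (coeff j (theta k rr b g.left.1 : EE k))
    (MonoidAlgebra.single (g00 g) 1)))

theorem coeff_Phi (b : (EE k)ˣ) (j : ℕ) (g : G0) : coeff j (Phi k rr b) (MonoidAlgebra.single g 1) =
    (coeff j (theta k rr b g.left.1 : EE k)) (MonoidAlgebra.single (g00 g) 1) := by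
  unfold Phi
  rw [PowerSeries.coeff_mk, lin_single]

theorem Phi_cong (i : ℕ) (b b' : (EE k)ˣ) (h : cg k i (b : EE k) b') :
    cg k (i + 1) (Phi k rr b) (Phi k rr b') := by
  rw [cg_iff]
  intro j hj
  apply end_ext
  intro g
  rw [coeff_Phi, coeff_Phi]
  have := theta_cong k rr i b b' h g.left.1
  rw [cg_iff] at this
  rw [this j hj]

theorem theta_const (b : (EE k)ˣ) (p : FreeGroup ℤ) :
    constantCoeff (theta k rr b p : EE k) = Lm k (MonoidAlgebra.single (SemidirectProduct.inl (p, 1)) 1) := by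
  have : (Units.map ((PowerSeries.constantCoeff : EE k →+* E0 k) : EE k →* E0 k)).comp (theta k rr b) =
      (Units.map ((PowerSeries.constantCoeff : EE k →+* E0 k) : EE k →* E0 k)).comp ((lam k).comp
        ((SemidirectProduct.inl).comp (MonoidHom.inl _ _))) := by
    ext n : 2
    simp only [MonoidHom.comp_apply, Units.coe_map, theta, FreeGroup.lift_apply_of, Units.val_mul,
      oneX_val, MonoidHom.coe_coe, map_mul, map_add, map_one, PowerSeries.constantCoeff_X, zero_mul,
      add_zero, one_mul]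
    rfl
  have h2 := congrArg Units.val (DFunLike.congr_fun this p)
  simp only [MonoidHom.comp_apply, Units.coe_map, MonoidHom.coe_coe] at h2
  rw [h2, lam_val]
  simp

theorem Phi_const (b : (EE k)ˣ) : constantCoeff (Phi k rr b) = Lm k (MonoidAlgebra.single (bb 0) 1) := by
  apply end_ext
  intro g
  rw [← PowerSeries.coeff_zero_eq_constantCoeff_apply, coeff_Phi,
    PowerSeries.coeff_zero_eq_constantCoeff_apply, theta_const, Lm_apply, Lm_apply,
    MonoidAlgebra.single_mul_single, MonoidAlgebra.single_mul_single]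
  congr 1
  apply SemidirectProduct.ext
  · simp only [g00, bb, SemidirectProduct.mul_left, SemidirectProduct.left_inl,
      SemidirectProduct.right_inl, map_one, MulAut.one_apply]
    ext <;> simp
  · simp [g00, bb]

theorem Phi_comm (b : (EE k)ˣ) (n : ℤ) :
    Phi k rr b * lam k (uu n) = theta k rr b (FreeGroup.of n) * Phi k rr b := by
  ext j : 1
  apply end_ext
  intro g
  rw [lam_val, PowerSeries.coeff_mul_C, Module.End.mul_apply, Lm_apply, MonoidAlgebra.single_mul_single,
    mul_one, coeff_Phi, PowerSeries.coeff_mul]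
  have h1 : g00 (uu n * g) = g00 g := by
    apply SemidirectProduct.ext
    · simp [g00, uu]
    · simp [g00, uu]
  have h2 : (uu n * g).left.1 = FreeGroup.of n * g.left.1 := by
    simp [uu]
  rw [h1, h2, map_mul, Units.val_mul, PowerSeries.coeff_mul]
  simp only [LinearMap.sum_apply, Module.End.mul_apply, coeff_Phi]

/-- the unit of `E0` given by left multiplication by `bb 0` -/
noncomputable def ub : (E0 k)ˣ := (Units.map ((Lm k : Lam k →* E0 k))) ((MonoidAlgebra.of k G0).toHomUnits (bb 0))

theorem ub_val : (ub k : E0 k) = Lm k (MonoidAlgebra.single (bb 0) 1) := rfl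

noncomputable def mkU (f : EE k) (hf : constantCoeff f = (ub k : E0 k)) : (EE k)ˣ where
  val := f
  inv := invOfUnit f (ub k)
  val_inv := mul_invOfUnit _ _ hf
  inv_val := invOfUnit_mul _ _ hf

noncomputable def PhiU (b : (EE k)ˣ) : (EE k)ˣ := mkU k (Phi k rr b) (Phi_const k rr b)

noncomputable def bseq : ℕ → (EE k)ˣ
  | 0 => lam k (bb 0)
  | n + 1 => PhiU k rr (bseq n)

theorem bseq_cong (i : ℕ) : cg k (i + 1) (bseq k rr (i + 1) : EE k) (bseq k rr i) := by
  induction i with
  | zero =>
    rw [cg_iff]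
    intro j hj
    have : j = 0 := by omega
    subst this
    rw [PowerSeries.coeff_zero_eq_constantCoeff_apply, PowerSeries.coeff_zero_eq_constantCoeff_apply]
    change constantCoeff (Phi k rr _) = constantCoeff (lam k (bb 0) : EE k)
    rw [Phi_const, lam_val, PowerSeries.constantCoeff_C]
  | succ i ih => exact Phi_cong k rr (i + 1) _ _ ih

theorem bseq_cong' (i m : ℕ) : cg k (i + 1) (bseq k rr (i + m) : EE k) (bseq k rr i) := by
  induction m with
  | zero => exact cg_refl _ _
  | succ m ih => exact cg_trans (cg_mono (by omega) (bseq_cong k rr (i + m))) ih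

noncomputable def blim : EE k := PowerSeries.mk (fun j => coeff j (bseq k rr j : EE k))

theorem blim_cong (i : ℕ) : cg k (i + 1) (blim k rr) (bseq k rr i) := by
  rw [cg_iff]
  intro j hj
  unfold blim
  rw [PowerSeries.coeff_mk]
  obtain ⟨m, rfl⟩ := Nat.exists_eq_add_of_le (Nat.lt_succ_iff.mp hj)
  have := bseq_cong' k rr j m
  rw [cg_iff] at this
  exact (this j (by omega)).symm

theorem blim_const : constantCoeff (blim k rr) = (ub k : E0 k) := by
  have := blim_cong k rr 1
  rw [cg_iff] at this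
  have h := this 0 (by omega)
  rw [PowerSeries.coeff_zero_eq_constantCoeff_apply, PowerSeries.coeff_zero_eq_constantCoeff_apply] at h
  rw [h]
  exact Phi_const k rr _

noncomputable def bl : (EE k)ˣ := mkU k (blim k rr) (blim_const k rr)

theorem Phi_bl : Phi k rr (bl k rr) = bl k rr := by
  ext j : 1
  have h1 : cg k (j + 2) (Phi k rr (bl k rr)) (bseq k rr (j + 1)) :=
    Phi_cong k rr (j + 1) _ _ (blim_cong k rr j)
  have h2 : cg k (j + 2) (bl k rr : EE k) (bseq k rr (j + 1)) := blim_cong k rr (j + 1)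
  have h3 := cg_trans h1 (cg_symm h2)
  rw [cg_iff] at h3
  exact h3 j (by omega)

theorem bl_comm (n : ℤ) : (bl k rr : EE k) * (lam k (uu n) : EE k) =
    (1 + X * ev k (bl k rr) (rr n)) * (lam k (uu n) : EE k) * (bl k rr : EE k) := by
  have h := Phi_comm k rr (bl k rr) n
  rw [Phi_bl] at h
  rw [h]
  unfold theta
  rw [FreeGroup.lift_apply_of, Units.val_mul, oneX_val]

/-- the ring -/
def RT : Type := (ev k (bl k rr)).range

noncomputable instance : Ring (RT k rr) := inferInstanceAs (Ring (ev k (bl k rr)).range)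
noncomputable instance : Algebra k (RT k rr) := inferInstanceAs (Algebra k (ev k (bl k rr)).range)

noncomputable def vl : RT k rr →ₐ[k] EE k := ((ev k (bl k rr)).range).val

theorem vl_inj : Function.Injective (vl k rr) := Subtype.val_injective

noncomputable def evR : FreeAlgebra k (Fin 7) →ₐ[k] RT k rr := (ev k (bl k rr)).rangeRestrict

theorem evR_surj : Function.Surjective (evR k rr) := AlgHom.rangeRestrict_surjective _

theorem vl_evR (p : FreeAlgebra k (Fin 7)) : vl k rr (evR k rr p) = ev k (bl k rr) p := rfl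

theorem RT_ft : Algebra.FiniteType k (RT k rr) :=
  Algebra.FiniteType.of_surjective (evR k rr) (evR_surj k rr)

noncomputable def gR (j : Fin 7) : RT k rr := evR k rr (FreeAlgebra.ι k j)

theorem vl_gR (j : Fin 7) : vl k rr (gR k rr j) = gens k (bl k rr) j := by
  unfold gR
  rw [vl_evR]
  unfold ev
  rw [FreeAlgebra.lift_ι_apply]

noncomputable def rX : RT k rr := gR k rr 0

theorem vl_X : vl k rr (rX k rr) = X := vl_gR k rr 0

theorem eq_one_of_vl {x y : RT k rr} (h : vl k rr x * vl k rr y = 1) : x * y = 1 := by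
  apply vl_inj
  rw [map_mul, h, map_one]

noncomputable def rA : (RT k rr)ˣ where
  val := gR k rr 1
  inv := gR k rr 2
  val_inv := eq_one_of_vl k rr (by rw [vl_gR, vl_gR]; exact Units.mul_inv _)
  inv_val := eq_one_of_vl k rr (by rw [vl_gR, vl_gR]; exact Units.inv_mul _)
noncomputable def rT : (RT k rr)ˣ where
  val := gR k rr 3
  inv := gR k rr 4
  val_inv := eq_one_of_vl k rr (by rw [vl_gR, vl_gR]; exact Units.mul_inv _)
  inv_val := eq_one_of_vl k rr (by rw [vl_gR, vl_gR]; exact Units.inv_mul _)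
noncomputable def rB : (RT k rr)ˣ where
  val := gR k rr 5
  inv := gR k rr 6
  val_inv := eq_one_of_vl k rr (by rw [vl_gR, vl_gR]; exact Units.mul_inv _)
  inv_val := eq_one_of_vl k rr (by rw [vl_gR, vl_gR]; exact Units.inv_mul _)

theorem aa_zpow (n : ℤ) : aa ^ n = SemidirectProduct.inr (Multiplicative.ofAdd n) := by
  unfold aa
  rw [← map_zpow, ← ofAdd_zsmul]
  simp

theorem conj_uu (n m : ℤ) : aa ^ n * uu m * (aa ^ n)⁻¹ = uu (n + m) := by
  rw [aa_zpow, ← map_inv]
  unfold uu
  rw [← SemidirectProduct.inl_aut]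
  congr 1

/-- the inclusion on units -/
noncomputable def incU : (RT k rr)ˣ →* (EE k)ˣ := Units.map (vl k rr : RT k rr →* EE k)

theorem incU_val (x : (RT k rr)ˣ) : (incU k rr x : EE k) = vl k rr x := rfl

noncomputable def rU (n : ℤ) : (RT k rr)ˣ := (rA k rr) ^ n * rT k rr * ((rA k rr) ^ n)⁻¹

theorem incU_rA : incU k rr (rA k rr) = lam k aa := by
  apply Units.ext
  rw [incU_val]
  exact vl_gR k rr 1

theorem incU_rT : incU k rr (rT k rr) = lam k (uu 0) := by
  apply Units.ext
  rw [incU_val]
  exact vl_gR k rr 3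

theorem incU_rB : incU k rr (rB k rr) = bl k rr := by
  apply Units.ext
  rw [incU_val]
  exact vl_gR k rr 5

theorem incU_rU (n : ℤ) : incU k rr (rU k rr n) = lam k (uu n) := by
  unfold rU
  rw [map_mul, map_mul, map_inv, map_zpow, incU_rA, incU_rT, ← map_zpow, ← map_inv, ← map_mul,
    ← map_mul, conj_uu, add_zero]

theorem rB_comm (n : ℤ) : (rB k rr : RT k rr) * (rU k rr n : RT k rr) =
    (1 + rX k rr * evR k rr (rr n)) * (rU k rr n : RT k rr) * (rB k rr : RT k rr) := by
  apply vl_inj
  have h := congrArg Units.val (incU_rU k rr n)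
  rw [incU_val] at h
  have h3 := congrArg Units.val (incU_rB k rr)
  rw [incU_val] at h3
  have h2 := bl_comm k rr n
  rw [map_mul, map_mul, map_mul, map_add, map_mul, map_one, h, h3, vl_X, vl_evR]
  exact h2

theorem rX_comm (r : RT k rr) : r * rX k rr = rX k rr * r := by
  apply vl_inj
  rw [map_mul, map_mul, vl_X]
  exact (PowerSeries.commute_X _).eq

theorem rX_jac (hrr : Function.Surjective rr) :
    rX k rr ∈ Ideal.jacobson (⊥ : Ideal (RT k rr)) := by
  rw [Ideal.mem_jacobson_iff]
  intro y
  obtain ⟨p, hp⟩ := evR_surj k rr y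
  obtain ⟨n, rfl⟩ := hrr p
  have h := rB_comm k rr n
  rw [hp] at h
  let w : (RT k rr)ˣ := rB k rr * rU k rr n * (rB k rr)⁻¹ * (rU k rr n)⁻¹
  have hw : (w : RT k rr) = 1 + rX k rr * y := by
    simp only [w, Units.val_mul]
    rw [h]
    calc _ = (1 + rX k rr * y) * ((rU k rr n : RT k rr) * ((rB k rr : RT k rr) *
          (((rB k rr)⁻¹ : (RT k rr)ˣ) : RT k rr)) * (((rU k rr n)⁻¹ : (RT k rr)ˣ) : RT k rr)) := by
          simp only [mul_assoc]
      _ = 1 + rX k rr * y := by rw [Units.mul_inv, mul_one, Units.mul_inv, mul_one]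
  refine ⟨((w⁻¹ : (RT k rr)ˣ) : RT k rr), ?_⟩
  rw [Ideal.mem_bot, mul_assoc, rX_comm]
  have : ((w⁻¹ : (RT k rr)ˣ) : RT k rr) * (rX k rr * y) + ((w⁻¹ : (RT k rr)ˣ) : RT k rr) =
      ((w⁻¹ : (RT k rr)ˣ) : RT k rr) * (1 + rX k rr * y) := by rw [mul_add, mul_one, add_comm]
  rw [this, ← hw, Units.inv_mul, sub_self]

theorem rX_ne : rX k rr ≠ 0 := by
  intro h
  have h1 := congrArg (vl k rr) h
  rw [vl_X, map_zero] at h1
  exact PowerSeries.X_ne_zero h1

/-- the ideal `X R` -/
noncomputable def IX : Ideal (RT k rr) := Ideal.span {rX k rr}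

instance : (IX k rr).IsTwoSided := by
  constructor
  intro a b ha
  unfold IX at *
  rw [Ideal.mem_span_singleton'] at *
  obtain ⟨c, rfl⟩ := ha
  refine ⟨c * b, ?_⟩
  rw [mul_assoc, mul_assoc, rX_comm]

abbrev QQ : Type := RT k rr ⧸ IX k rr

noncomputable def qm : RT k rr →ₐ[k] QQ k rr := Ideal.Quotient.mkₐ k (IX k rr)

theorem qm_X : qm k rr (rX k rr) = 0 := by
  change Ideal.Quotient.mk (IX k rr) (rX k rr) = 0
  rw [Ideal.Quotient.eq_zero_iff_mem]
  exact Ideal.subset_span rfl

noncomputable def qu : (RT k rr)ˣ →* (QQ k rr)ˣ := Units.map (qm k rr : RT k rr →* QQ k rr)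

theorem qu_comm (n : ℤ) : Commute (qu k rr (rU k rr n)) (qu k rr (rB k rr)) := by
  apply Units.ext
  have h := congrArg (qm k rr) (rB_comm k rr n)
  rw [map_mul, map_mul, map_mul, map_add, map_mul, qm_X, zero_mul, add_zero, map_one, one_mul] at h
  exact h.symm

noncomputable def S1 : FreeGroup ℤ →* (QQ k rr)ˣ := FreeGroup.lift (fun n => qu k rr (rU k rr n))
noncomputable def S2 : FreeGroup ℤ →* (QQ k rr)ˣ :=
  FreeGroup.lift (fun n => qu k rr ((rA k rr) ^ n * rB k rr * ((rA k rr) ^ n)⁻¹))

theorem rU_conj (n m : ℤ) : (rA k rr) ^ n * rU k rr m * ((rA k rr) ^ n)⁻¹ = rU k rr (n + m) := by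
  unfold rU
  rw [zpow_add]
  group

theorem S_comm (p q : FreeGroup ℤ) : Commute (S1 k rr p) (S2 k rr q) := by
  induction p using FreeGroup.induction_on with
  | C1 => rw [map_one]; exact Commute.one_left _
  | of n =>
    induction q using FreeGroup.induction_on with
    | C1 => rw [map_one]; exact Commute.one_right _
    | of m =>
      unfold S1 S2
      rw [FreeGroup.lift_apply_of, FreeGroup.lift_apply_of]
      have h := qu_comm k rr (-m + n)
      have h2 : rU k rr n = (rA k rr) ^ m * rU k rr (-m + n) * ((rA k rr) ^ m)⁻¹ := by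
        rw [rU_conj]; congr 1; ring
      rw [h2]
      simp only [map_mul, map_inv]
      exact h.conj _
    | inv_of m hm => rw [map_inv]; exact hm.inv_right
    | mul q q' hq hq' => rw [map_mul]; exact hq.mul_right hq'
  | inv_of n hn => rw [map_inv]; exact hn.inv_left
  | mul p p' hp hp' => rw [map_mul]; exact hp.mul_left hp'

noncomputable def SN : FreeGroup ℤ × FreeGroup ℤ →* (QQ k rr)ˣ :=
  MonoidHom.noncommCoprod (S1 k rr) (S2 k rr) (S_comm k rr)

noncomputable def S3 : Multiplicative ℤ →* (QQ k rr)ˣ := zpowersHom _ (qu k rr (rA k rr))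

theorem S1_shf (m : ℤ) (p : FreeGroup ℤ) :
    S1 k rr (shf m p) = qu k rr (rA k rr) ^ m * S1 k rr p * (qu k rr (rA k rr) ^ m)⁻¹ := by
  have : (S1 k rr).comp (shf m).toMonoidHom =
      (MulAut.conj (qu k rr (rA k rr) ^ m)).toMonoidHom.comp (S1 k rr) := by
    ext n : 1
    simp only [MonoidHom.comp_apply, MulEquiv.coe_toMonoidHom, shf_of, MulAut.conj_apply]
    unfold S1
    rw [FreeGroup.lift_apply_of, FreeGroup.lift_apply_of, ← rU_conj, map_mul, map_mul, map_inv, map_zpow]
  exact DFunLike.congr_fun this p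

theorem S2_shf (m : ℤ) (p : FreeGroup ℤ) :
    S2 k rr (shf m p) = qu k rr (rA k rr) ^ m * S2 k rr p * (qu k rr (rA k rr) ^ m)⁻¹ := by
  have : (S2 k rr).comp (shf m).toMonoidHom =
      (MulAut.conj (qu k rr (rA k rr) ^ m)).toMonoidHom.comp (S2 k rr) := by
    ext n : 1
    simp only [MonoidHom.comp_apply, MulEquiv.coe_toMonoidHom, shf_of, MulAut.conj_apply]
    unfold S2
    rw [FreeGroup.lift_apply_of, FreeGroup.lift_apply_of, ← map_zpow, ← map_inv, ← map_mul, ← map_mul]
    congr 1
    rw [zpow_add]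
    group
  exact DFunLike.congr_fun this p

noncomputable def SG : G0 →* (QQ k rr)ˣ :=
  SemidirectProduct.lift (SN k rr) (S3 k rr) (by
    intro g
    apply MonoidHom.ext
    rintro ⟨p, q⟩
    have h1 : (act g) (p, q) = (shf g.toAdd p, shf g.toAdd q) := rfl
    simp only [MonoidHom.comp_apply, MulEquiv.coe_toMonoidHom, h1, MulAut.conj_apply]
    unfold SN S3
    rw [MonoidHom.noncommCoprod_apply, MonoidHom.noncommCoprod_apply, S1_shf, S2_shf]
    have h2 : (zpowersHom (QQ k rr)ˣ) (qu k rr (rA k rr)) g = qu k rr (rA k rr) ^ g.toAdd := rfl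
    rw [h2]
    group)

/-- the algebra map from the group algebra of `G0` to `R / X R` -/
noncomputable def HH : Lam k →ₐ[k] QQ k rr :=
  MonoidAlgebra.lift k (QQ k rr) G0 ((Units.coeHom (QQ k rr)).comp (SG k rr))

theorem HH_single (g : G0) : HH k rr (MonoidAlgebra.single g 1) = (SG k rr g : QQ k rr) := by
  simp [HH]

theorem SG_aa : SG k rr aa = qu k rr (rA k rr) := by
  unfold SG aa
  rw [SemidirectProduct.lift_inr]
  unfold S3
  simp

theorem S1_of (n : ℤ) : S1 k rr (FreeGroup.of n) = qu k rr (rU k rr n) := by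
  unfold S1
  rw [FreeGroup.lift_apply_of]

theorem S2_of (n : ℤ) : S2 k rr (FreeGroup.of n) =
    qu k rr ((rA k rr) ^ n * rB k rr * ((rA k rr) ^ n)⁻¹) := by
  unfold S2
  rw [FreeGroup.lift_apply_of]

theorem SN_apply (p q : FreeGroup ℤ) : SN k rr (p, q) = S1 k rr p * S2 k rr q := rfl

theorem SG_inl (x : FreeGroup ℤ × FreeGroup ℤ) : SG k rr (SemidirectProduct.inl x) = SN k rr x := by
  unfold SG
  rw [SemidirectProduct.lift_inl]

theorem SG_inr (x : Multiplicative ℤ) : SG k rr (SemidirectProduct.inr x) = S3 k rr x := by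
  unfold SG
  rw [SemidirectProduct.lift_inr]

theorem SG_uu : SG k rr (uu 0) = qu k rr (rT k rr) := by
  unfold uu
  rw [SG_inl, SN_apply, S1_of, map_one, mul_one]
  unfold rU
  rw [zpow_zero, one_mul, inv_one, mul_one]

theorem SG_bb : SG k rr (bb 0) = qu k rr (rB k rr) := by
  unfold bb
  rw [SG_inl, SN_apply, S2_of, map_one, one_mul, zpow_zero, one_mul, inv_one, mul_one]

theorem HH_surj (f : RT k rr) : ∃ l, HH k rr l = qm k rr f := by
  obtain ⟨p, rfl⟩ := evR_surj k rr f
  induction p with
  | grade0 r =>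
    exact ⟨algebraMap k _ r, by rw [AlgHom.commutes, AlgHom.commutes, AlgHom.commutes]⟩
  | grade1 j =>
    change ∃ l, HH k rr l = qm k rr (gR k rr j)
    fin_cases j
    · refine ⟨0, ?_⟩
      rw [map_zero]; exact (qm_X k rr).symm
    · refine ⟨MonoidAlgebra.single aa 1, ?_⟩
      rw [HH_single, SG_aa]; rfl
    · refine ⟨MonoidAlgebra.single aa⁻¹ 1, ?_⟩
      rw [HH_single, map_inv, SG_aa]; rfl
    · refine ⟨MonoidAlgebra.single (uu 0) 1, ?_⟩
      rw [HH_single, SG_uu]; rfl
    · refine ⟨MonoidAlgebra.single (uu 0)⁻¹ 1, ?_⟩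
      rw [HH_single, map_inv, SG_uu]; rfl
    · refine ⟨MonoidAlgebra.single (bb 0) 1, ?_⟩
      rw [HH_single, SG_bb]; rfl
    · refine ⟨MonoidAlgebra.single (bb 0)⁻¹ 1, ?_⟩
      rw [HH_single, map_inv, SG_bb]; rfl
  | mul p q hp hq =>
    obtain ⟨l, hl⟩ := hp
    obtain ⟨l', hl'⟩ := hq
    exact ⟨l * l', by rw [map_mul, hl, hl', map_mul, map_mul]⟩
  | add p q hp hq =>
    obtain ⟨l, hl⟩ := hp
    obtain ⟨l', hl'⟩ := hq
    exact ⟨l + l', by rw [map_add, hl, hl', map_add, map_add]⟩

/-- the map `R → End Λ` -/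
noncomputable def cc : RT k rr →+* E0 k := (PowerSeries.constantCoeff).comp (vl k rr).toRingHom

theorem cc_apply (f : RT k rr) : cc k rr f = constantCoeff (vl k rr f) := rfl

theorem cc_X : cc k rr (rX k rr) = 0 := by
  rw [cc_apply, vl_X, PowerSeries.constantCoeff_X]

noncomputable def dn : QQ k rr →+* E0 k := Ideal.Quotient.lift (IX k rr) (cc k rr) (by
  intro a ha
  unfold IX at ha
  rw [Ideal.mem_span_singleton'] at ha
  obtain ⟨c, rfl⟩ := ha
  rw [map_mul, cc_X, mul_zero])

theorem dn_qm (f : RT k rr) : dn k rr (qm k rr f) = cc k rr f := rfl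

noncomputable def ccU : (RT k rr)ˣ →* (E0 k)ˣ := Units.map (cc k rr : RT k rr →* E0 k)
noncomputable def LmU : G0 →* (E0 k)ˣ :=
  ((Units.map ((Lm k : Lam k →* E0 k))).comp (MonoidAlgebra.of k G0).toHomUnits)
noncomputable def dnU : (QQ k rr)ˣ →* (E0 k)ˣ := Units.map (dn k rr : QQ k rr →* E0 k)

theorem LmU_val (g : G0) : (LmU k g : E0 k) = Lm k (MonoidAlgebra.single g 1) := rfl

theorem dnU_qu (x : (RT k rr)ˣ) : dnU k rr (qu k rr x) = ccU k rr x := rfl

theorem ccU_rA : ccU k rr (rA k rr) = LmU k aa := by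
  apply Units.ext
  have h : ((ccU k rr (rA k rr) : (E0 k)ˣ) : E0 k) = constantCoeff (vl k rr (rA k rr)) := rfl
  rw [h, ← incU_val, incU_rA, lam_val, PowerSeries.constantCoeff_C, LmU_val]

theorem ccU_rT : ccU k rr (rT k rr) = LmU k (uu 0) := by
  apply Units.ext
  have h : ((ccU k rr (rT k rr) : (E0 k)ˣ) : E0 k) = constantCoeff (vl k rr (rT k rr)) := rfl
  rw [h, ← incU_val, incU_rT, lam_val, PowerSeries.constantCoeff_C, LmU_val]

theorem ccU_rB : ccU k rr (rB k rr) = LmU k (bb 0) := by
  apply Units.ext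
  have h : ((ccU k rr (rB k rr) : (E0 k)ˣ) : E0 k) = constantCoeff (vl k rr (rB k rr)) := rfl
  rw [h, ← incU_val, incU_rB]
  exact blim_const k rr

theorem ccU_rU (n : ℤ) : ccU k rr (rU k rr n) = LmU k (uu n) := by
  unfold rU
  rw [map_mul, map_mul, map_inv, map_zpow, ccU_rA, ccU_rT, ← map_zpow, ← map_inv, ← map_mul,
    ← map_mul, conj_uu, add_zero]

theorem conj_bb (n m : ℤ) : aa ^ n * bb m * (aa ^ n)⁻¹ = bb (n + m) := by
  rw [aa_zpow, ← map_inv]
  unfold bb
  rw [← SemidirectProduct.inl_aut]
  congr 1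

theorem dnU_SG (g : G0) : dnU k rr (SG k rr g) = LmU k g := by
  have : (dnU k rr).comp (SG k rr) = LmU k := by
    apply SemidirectProduct.hom_ext
    · apply MonoidHom.ext
      rintro ⟨p, q⟩
      have h0 : ((p, q) : FreeGroup ℤ × FreeGroup ℤ) = (p, 1) * (1, q) := by simp
      rw [h0, map_mul, map_mul]
      congr 1
      · have h1 : ((dnU k rr).comp (SG k rr)).comp ((SemidirectProduct.inl).comp (MonoidHom.inl _ _)) =
            (LmU k).comp ((SemidirectProduct.inl).comp (MonoidHom.inl _ _)) := by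
          ext n : 1
          simp only [MonoidHom.comp_apply, MonoidHom.inl_apply]
          rw [SG_inl, SN_apply, S1_of, map_one, mul_one, dnU_qu, ccU_rU]
          rfl
        exact DFunLike.congr_fun h1 p
      · have h1 : ((dnU k rr).comp (SG k rr)).comp ((SemidirectProduct.inl).comp (MonoidHom.inr _ _)) =
            (LmU k).comp ((SemidirectProduct.inl).comp (MonoidHom.inr _ _)) := by
          ext n : 1
          simp only [MonoidHom.comp_apply, MonoidHom.inr_apply]
          rw [SG_inl, SN_apply, S2_of, map_one, one_mul, dnU_qu, map_mul, map_mul, map_inv, map_zpow,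
            ccU_rA, ccU_rB, ← map_zpow, ← map_inv, ← map_mul, ← map_mul, conj_bb, add_zero]
          rfl
        exact DFunLike.congr_fun h1 q
    · apply MonoidHom.ext
      intro m
      simp only [MonoidHom.comp_apply]
      rw [SG_inr]
      have h2 : S3 k rr m = qu k rr (rA k rr) ^ m.toAdd := rfl
      rw [h2, ← map_zpow, dnU_qu, map_zpow, ccU_rA, ← map_zpow, aa_zpow]
      rfl
  exact DFunLike.congr_fun this g

theorem dn_HH (l : Lam k) : dn k rr (HH k rr l) = Lm k l := by
  induction l using MonoidAlgebra.induction_linear with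
  | zero => simp
  | add x y hx hy => rw [map_add, map_add, map_add, hx, hy]
  | single g r =>
    have h1 : (MonoidAlgebra.single g r : Lam k) = algebraMap k _ r * MonoidAlgebra.single g 1 := by
      simp
    have h2 := congrArg Units.val (dnU_SG k rr g)
    have h3 : dn k rr (HH k rr (MonoidAlgebra.single g 1)) = Lm k (MonoidAlgebra.single g 1) := by
      rw [HH_single]; exact h2
    rw [h1, map_mul, map_mul, map_mul, h3, AlgHom.commutes, AlgHom.commutes]
    congr 1

/-- key lemma: an element of `R` with zero constant coefficient is in `X R` -/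
theorem key (f : RT k rr) (hf : constantCoeff (vl k rr f) = 0) : ∃ g : RT k rr, f = rX k rr * g := by
  obtain ⟨l, hl⟩ := HH_surj k rr f
  have h1 : Lm k l = 0 := by
    rw [← dn_HH k rr l, hl, dn_qm, cc_apply, hf]
  have h2 : l = 0 := by
    apply Lm_inj k
    rw [h1, map_zero]
  rw [h2, map_zero] at hl
  have h3 : f ∈ IX k rr := by
    rw [← Ideal.Quotient.eq_zero_iff_mem]
    exact hl.symm
  unfold IX at h3
  rw [Ideal.mem_span_singleton'] at h3
  obtain ⟨g, rfl⟩ := h3
  exact ⟨g, rX_comm k rr g⟩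

/-- the constant coefficients of elements of `R` are left multiplications -/
theorem cc_form (f : RT k rr) : ∃ l, Lm k l = constantCoeff (vl k rr f) := by
  obtain ⟨l, hl⟩ := HH_surj k rr f
  exact ⟨l, by rw [← dn_HH k rr l, hl, dn_qm, cc_apply]⟩

/-- every nonzero element is a power of `X` times an element with nonzero constant coefficient -/
theorem factor (f : RT k rr) (hf : f ≠ 0) : ∃ (n : ℕ) (g : RT k rr), f = rX k rr ^ n * g ∧
    constantCoeff (vl k rr g) ≠ 0 := by
  by_contra hcon
  push Not at hcon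
  have h : ∀ n : ℕ, ∃ g : RT k rr, f = rX k rr ^ n * g := by
    intro n
    induction n with
    | zero => exact ⟨f, by rw [pow_zero, one_mul]⟩
    | succ n ih =>
      obtain ⟨g, hg⟩ := ih
      obtain ⟨g', hg'⟩ := key k rr g (hcon n g hg)
      exact ⟨g', by rw [hg, hg', ← mul_assoc, ← pow_succ]⟩
  apply hf
  apply vl_inj
  rw [map_zero]
  ext n : 1
  obtain ⟨g, hg⟩ := h (n + 1)
  rw [hg, map_mul, map_pow, vl_X, map_zero]
  have := (PowerSeries.X_pow_dvd_iff (n := n + 1) (φ := (X : EE k) ^ (n + 1) * vl k rr g)).mp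
    (Dvd.intro _ rfl) n (by omega)
  exact this

theorem RT_nzd : NoZeroDivisors (RT k rr) where
  eq_zero_or_eq_zero_of_mul_eq_zero := by
    intro f g hfg
    by_contra hcon
    push Not at hcon
    obtain ⟨hf, hg⟩ := hcon
    obtain ⟨n, f', rfl, hf'⟩ := factor k rr f hf
    obtain ⟨m, g', rfl, hg'⟩ := factor k rr g hg
    obtain ⟨l, hl⟩ := cc_form k rr f'
    obtain ⟨l', hl'⟩ := cc_form k rr g'
    have h1 : vl k rr (f' * g') ≠ 0 := by
      intro h
      have h2 := congrArg constantCoeff h
      rw [map_mul, map_mul, ← hl, ← hl', ← map_mul, map_zero] at h2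
      have h3 : l * l' = 0 := by
        apply Lm_inj k
        rw [h2, map_zero]
      rcases mul_eq_zero.mp h3 with h | h
      · rw [h, map_zero] at hl; exact hf' hl.symm
      · rw [h, map_zero] at hl'; exact hg' hl'.symm
    apply h1
    have h4 := congrArg (vl k rr) hfg
    have h5 : rX k rr ^ n * f' * (rX k rr ^ m * g') = rX k rr ^ (n + m) * (f' * g') := by
      have hc : f' * rX k rr ^ m = rX k rr ^ m * f' :=
        (Commute.pow_right (rX_comm k rr f') m)
      rw [pow_add]
      calc rX k rr ^ n * f' * (rX k rr ^ m * g') = rX k rr ^ n * (f' * rX k rr ^ m) * g' := by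
            simp only [mul_assoc]
        _ = _ := by rw [hc]; simp only [mul_assoc]
    rw [h5, map_mul, map_pow, vl_X, map_zero] at h4
    ext j : 1
    have h6 := congrArg (coeff (j + (n + m))) h4
    rwa [PowerSeries.coeff_X_pow_mul] at h6

theorem exists_rr [Countable k] : ∃ rr : ℤ → FreeAlgebra k (Fin 7), Function.Surjective rr := by
  have h1 : Cardinal.mk (FreeAlgebra k (Fin 7)) ≤ Cardinal.aleph0 := by
    refine (FreeAlgebra.cardinalMk_le_max_lift k (Fin 7)).trans ?_
    simp
  have h2 : Countable (FreeAlgebra k (Fin 7)) := Cardinal.mk_le_aleph0_iff.mp h1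
  obtain ⟨f, hf⟩ := exists_surjective_nat (FreeAlgebra k (Fin 7))
  obtain ⟨g, hg⟩ := exists_surjective_nat (FreeAlgebra k (Fin 7))
  exact ⟨fun n => f n.toNat, fun y => by
    obtain ⟨n, hn⟩ := hf y
    exact ⟨n, by simpa using hn⟩⟩

end main

/-- For every countable field `k` there is a finitely generated `k`-algebra which is a domain and
whose Jacobson radical (the intersection of all maximal left ideals) is nonzero. -/
theorem result (k : Type) [Field k] [Countable k] :
    ∃ (R : Type) (_ : Ring R) (_ : Algebra k R),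
      Algebra.FiniteType k R ∧ IsDomain R ∧ Ideal.jacobson (⊥ : Ideal R) ≠ ⊥ := by
  obtain ⟨rr, hrr⟩ := exists_rr k
  refine ⟨RT k rr, inferInstance, inferInstance, RT_ft k rr, ?_, ?_⟩
  · have h1 : Nontrivial (RT k rr) := ⟨⟨rX k rr, 0, rX_ne k rr⟩⟩
    have h2 : NoZeroDivisors (RT k rr) := RT_nzd k rr
    exact NoZeroDivisors.to_isDomain _
  · intro h
    have h1 := rX_jac k rr hrr
    rw [h, Ideal.mem_bot] at h1
    exact rX_ne k rr h1

end Pool.Agent.Results.MP_2e9a62_al.FGDomainNonzeroJacobson
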